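import Mathlib

set_option autoImplicit false

/-!
# The maximal 2-extension inside a cyclotomic field
-/

namespace Pool.Agent.H570

open IntermediateField

attribute [local instance high] IntermediateField.algebra'

/-- the algebraic closure -/
abbrev Qb : Type := AlgebraicClosure ℚ

instance isAlg : Algebra.IsAlgebraic ℚ Qb := AlgebraicClosure.isAlgebraic ℚ

instance isAC : IsAlgClosure ℚ Qb := AlgebraicClosure.instIsAlgClosure ℚ

instance isGal : IsGalois ℚ Qb := IsAlgClosure.isGalois ℚ Qb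

/-- the odd part -/
def oddPart (n : ℕ) : ℕ := ordCompl[2] n

lemma odd_oddPart (n : ℕ) (hn : n ≠ 0) : Odd (oddPart n) := by
  rw [← Nat.not_even_iff_odd, even_iff_two_dvd]
  exact Nat.not_dvd_ordCompl Nat.prime_two hn

lemma pow_oddPart {G : Type*} [Group G] [Finite G] (x : G) (m : ℕ) (hm : Odd m) (hx : x ^ m = 1) :
    x ^ (oddPart (Nat.card G)) = 1 := by
  have h1 : orderOf x ∣ m := orderOf_dvd_of_pow_eq_one hx
  have h2 : Odd (orderOf x) := Odd.of_dvd_nat hm h1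
  have h3 : orderOf x ∣ Nat.card G := orderOf_dvd_natCard x
  have h4 : ordProj[2] (Nat.card G) * oddPart (Nat.card G) = Nat.card G :=
    Nat.ordProj_mul_ordCompl_eq_self _ _
  rw [← h4] at h3
  have h5 : (orderOf x).Coprime (2 ^ (Nat.card G).factorization 2) :=
    Nat.Coprime.pow_right _ (Nat.coprime_two_right.mpr h2)
  exact orderOf_dvd_iff_pow_eq_one.mp (h5.dvd_of_dvd_mul_left h3)

section level

variable {M : ℕ} [NeZero M] {ζ : Qb} (hζ : IsPrimitiveRoot ζ M)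

include hζ in
lemma pow_val_eq_self_iff (a : ZMod M) : ζ ^ a.val = ζ ↔ a = 1 := by
  have hu : IsUnit ζ := hζ.isUnit (NeZero.ne M)
  obtain ⟨u, hu⟩ := hu
  have h1 : ζ ^ a.val = ζ ↔ u ^ a.val = u ^ 1 := by
    rw [pow_one, ← hu, ← Units.val_pow_eq_pow_val, Units.val_inj]
  have h2 : orderOf u = M := by
    rw [← orderOf_units, hu]
    exact hζ.eq_orderOf.symm
  rw [h1, pow_eq_pow_iff_modEq, h2, ← ZMod.natCast_eq_natCast_iff]
  simp

lemma aut_eq_one_iff (σ : Qb ≃ₐ[ℚ] Qb) : hζ.autToPow ℚ σ = 1 ↔ σ ζ = ζ := by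
  rw [← hζ.autToPow_spec ℚ σ, pow_val_eq_self_iff hζ, Units.val_eq_one]

/-- the automorphisms which act on the roots of unity with odd order -/
noncomputable def H : Subgroup (Qb ≃ₐ[ℚ] Qb) :=
  ((powMonoidHom (oddPart (Nat.card (ZMod M)ˣ))).comp (hζ.autToPow ℚ)).ker

lemma mem_H (σ : Qb ≃ₐ[ℚ] Qb) : σ ∈ H hζ ↔ ∃ m : ℕ, Odd m ∧ (σ ^ m) ζ = ζ := by
  unfold H
  rw [MonoidHom.mem_ker, MonoidHom.comp_apply, powMonoidHom_apply]
  constructor
  · intro h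
    refine ⟨oddPart (Nat.card (ZMod M)ˣ), odd_oddPart _ Nat.card_pos.ne', ?_⟩
    rw [← aut_eq_one_iff hζ, map_pow]
    exact h
  · rintro ⟨m, hm, h⟩
    rw [← aut_eq_one_iff hζ, map_pow] at h
    exact pow_oddPart _ m hm h

/-- the field fixed by `H` -/
noncomputable def KK : IntermediateField ℚ Qb := fixedField (H hζ)

lemma mem_KK (x : Qb) : x ∈ KK hζ ↔ ∀ σ : Qb ≃ₐ[ℚ] Qb, (∃ m : ℕ, Odd m ∧ (σ ^ m) ζ = ζ) →
    σ x = x := by
  unfold KK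
  rw [mem_fixedField_iff]
  constructor
  · intro h σ hσ
    exact h σ ((mem_H hζ σ).mpr hσ)
  · intro h σ hσ
    exact h σ ((mem_H hζ σ).mp hσ)

lemma fix_iff (ζ : Qb) (σ : Qb ≃ₐ[ℚ] Qb) : σ ∈ (ℚ⟮ζ⟯).fixingSubgroup ↔ σ ζ = ζ := by
  constructor
  · intro h
    exact (IntermediateField.mem_fixingSubgroup_iff _ _).mp h ζ (mem_adjoin_simple_self ℚ ζ)
  · intro h
    rw [IntermediateField.mem_fixingSubgroup_iff]
    intro x hx
    have h1 : ℚ⟮ζ⟯ ≤ fixedField (Subgroup.zpowers σ) := by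
      rw [adjoin_simple_le_iff, mem_fixedField_iff]
      intro τ hτ
      obtain ⟨n, rfl⟩ := hτ
      exact MulAction.mem_stabilizer_iff.mp ((MulAction.stabilizer (Qb ≃ₐ[ℚ] Qb) ζ).zpow_mem
        (MulAction.mem_stabilizer_iff.mpr h) n)
    exact (mem_fixedField_iff _ _).mp (h1 hx) σ (Subgroup.mem_zpowers σ)

lemma fixing_le_H : (ℚ⟮ζ⟯).fixingSubgroup ≤ H hζ := by
  intro σ hσ
  rw [mem_H]
  exact ⟨1, odd_one, by rw [pow_one]; exact (fix_iff ζ σ).mp hσ⟩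

lemma KK_le : KK hζ ≤ ℚ⟮ζ⟯ := by
  have h := InfiniteGalois.fixedField_fixingSubgroup (k := ℚ) (K := Qb) ℚ⟮ζ⟯
  rw [← h]
  exact fixedField_antitone (fixing_le_H hζ)

lemma finDim (ζ : Qb) : FiniteDimensional ℚ ℚ⟮ζ⟯ :=
  adjoin.finiteDimensional (((AlgebraicClosure.isAlgebraic ℚ).isAlgebraic ζ).isIntegral)

lemma finDimKK : FiniteDimensional ℚ (KK hζ) := by
  have := finDim ζ
  have h := IntermediateField.inclusion (KK_le hζ)
  exact FiniteDimensional.of_injective h.toLinearMap h.injective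

lemma isOpen_H : IsOpen (H hζ : Set (Qb ≃ₐ[ℚ] Qb)) := by
  have := finDim ζ
  exact Subgroup.isOpen_mono (fixing_le_H hζ) (ℚ⟮ζ⟯).fixingSubgroup_isOpen

lemma fixing_KK : (KK hζ).fixingSubgroup = H hζ := by
  have h1 : IsClosed (H hζ : Set (Qb ≃ₐ[ℚ] Qb)) :=
    Subgroup.isClosed_of_isOpen _ (isOpen_H hζ)
  exact InfiniteGalois.fixingSubgroup_fixedField ⟨H hζ, h1⟩

lemma isGaloisKK : IsGalois ℚ (KK hζ) := by
  rw [← InfiniteGalois.normal_iff_isGalois, fixing_KK]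
  unfold H
  infer_instance

/-- if a Galois automorphism fixes `KK` then it acts with odd order -/
lemma fixes_KK (σ : Qb ≃ₐ[ℚ] Qb) (h : ∀ x ∈ KK hζ, σ x = x) : ∃ m : ℕ, Odd m ∧ (σ ^ m) ζ = ζ := by
  rw [← mem_H hζ, ← fixing_KK, IntermediateField.mem_fixingSubgroup_iff]
  exact h

include hζ in
/-- some odd multiple of a power of two kills the action on the roots of unity -/
lemma exists_pow_fix (σ : Qb ≃ₐ[ℚ] Qb) : ∃ s t : ℕ, Odd t ∧ (σ ^ (2 ^ s * t)) ζ = ζ := by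
  set n := orderOf (hζ.autToPow ℚ σ) with hn
  have hn0 : n ≠ 0 := (orderOf_pos _).ne'
  obtain ⟨s, t, ht, hst⟩ := Nat.exists_eq_two_pow_mul_odd hn0
  refine ⟨s, t, ht, ?_⟩
  rw [← hst, ← aut_eq_one_iff hζ, map_pow, hn, pow_orderOf_eq_one]

lemma exists_two_pow_mem_H (σ : Qb ≃ₐ[ℚ] Qb) : ∃ s : ℕ, σ ^ (2 ^ s) ∈ H hζ := by
  obtain ⟨s, t, ht, h⟩ := exists_pow_fix hζ σ
  refine ⟨s, (mem_H hζ _).mpr ⟨t, ht, ?_⟩⟩
  rw [← pow_mul]
  exact h

lemma finrank_KK_pow : ∃ t : ℕ, Module.finrank ℚ (KK hζ) = 2 ^ t := by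
  have := finDimKK hζ
  have := isGaloisKK hζ
  have hp : IsPGroup 2 (KK hζ ≃ₐ[ℚ] KK hζ) := by
    intro g
    obtain ⟨σ, rfl⟩ := AlgEquiv.restrictNormalHom_surjective (F := ℚ) (K₁ := KK hζ) Qb g
    obtain ⟨s, hs⟩ := exists_two_pow_mem_H hζ σ
    refine ⟨s, ?_⟩
    rw [← map_pow]
    ext x
    have h1 : (σ ^ 2 ^ s) (x : Qb) = x :=
      (mem_KK hζ x).mp x.2 _ ((mem_H hζ _).mp hs)
    have h2 := AlgEquiv.restrictNormal_commutes (σ ^ 2 ^ s) (KK hζ) x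
    exact h2.trans h1
  obtain ⟨t, ht⟩ := IsPGroup.iff_card.mp hp
  refine ⟨t, ?_⟩
  rw [← ht]
  exact (IsGalois.card_aut_eq_finrank ℚ (KK hζ)).symm

include hζ in
lemma finrank_cyc : Module.finrank ℚ ℚ⟮ζ⟯ = Nat.totient M := by
  have h := adjoin.finrank (K := ℚ) (x := ζ) (((AlgebraicClosure.isAlgebraic ℚ).isAlgebraic ζ).isIntegral)
  rw [h, ← Polynomial.cyclotomic_eq_minpoly_rat hζ (NeZero.pos M), Polynomial.natDegree_cyclotomic]

lemma finrank_KK_le (s u : ℕ) (hφ : Nat.totient M = 2 ^ s * u) (hu : Odd u) :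
    Module.finrank ℚ (KK hζ) ≤ 2 ^ s := by
  obtain ⟨t, ht⟩ := finrank_KK_pow hζ
  have := finDim ζ
  have h1 : Module.finrank ℚ (KK hζ) ∣ Module.finrank ℚ ℚ⟮ζ⟯ :=
    IntermediateField.finrank_dvd_of_le_right (KK_le hζ)
  rw [finrank_cyc hζ, hφ, ht] at h1
  have h2 : 2 ^ t ∣ 2 ^ s :=
    Nat.Coprime.dvd_of_dvd_mul_right (Nat.Coprime.pow_left _ (Nat.coprime_two_left.mpr hu)) h1
  rw [ht]
  exact Nat.le_of_dvd (by positivity) h2

end level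

section two

variable {M M' : ℕ} [NeZero M] [NeZero M'] {ζ ζ' : Qb} (hζ : IsPrimitiveRoot ζ M)
  (hζ' : IsPrimitiveRoot ζ' M') (hM : M ∣ M')

include hζ hζ' hM in
lemma fix_of_fix (σ : Qb ≃ₐ[ℚ] Qb) (h : σ ζ' = ζ') : σ ζ = ζ := by
  have h1 : ζ ^ M' = 1 := by
    obtain ⟨c, rfl⟩ := hM
    rw [pow_mul, hζ.pow_eq_one, one_pow]
  obtain ⟨i, _, rfl⟩ := hζ'.eq_pow_of_pow_eq_one h1
  rw [map_pow, h]

include hM in
lemma KK_mono : KK hζ ≤ KK hζ' := by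
  intro x hx
  rw [mem_KK] at hx ⊢
  rintro σ ⟨m, hm, h⟩
  exact hx σ ⟨m, hm, fix_of_fix hζ hζ' hM _ h⟩

lemma mem_KK_of_mem (x : Qb) (hx : x ∈ KK hζ') (hx2 : x ∈ ℚ⟮ζ⟯) : x ∈ KK hζ := by
  rw [mem_KK]
  rintro σ ⟨m, hm, h⟩
  obtain ⟨s, t, ht, hst⟩ := exists_pow_fix hζ' σ
  obtain ⟨j, hj⟩ : ∃ j : ℕ, (m + 1) ^ s = 1 + m * j := by
    have h1 : (m + 1) ^ s ≡ 1 [MOD m] := by
      have h2 : m + 1 ≡ 1 [MOD m] := by simp [Nat.ModEq]
      simpa using h2.pow s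
    have h3 : 1 ≤ (m + 1) ^ s := Nat.one_le_pow _ _ (by omega)
    obtain ⟨j, hj⟩ := (Nat.modEq_iff_dvd' h3).mp h1.symm
    exact ⟨j, by omega⟩
  obtain ⟨r, hr⟩ : ∃ r : ℕ, (m + 1) ^ s = 2 ^ s * r := by
    obtain ⟨c, hc⟩ := hm
    refine ⟨(c + 1) ^ s, ?_⟩
    rw [← mul_pow]
    congr 1
    omega
  have h1 : (σ ^ ((m + 1) ^ s)) x = x := by
    refine (mem_KK hζ' x).mp hx _ ⟨t, ht, ?_⟩
    rw [← pow_mul, hr, show 2 ^ s * r * t = (2 ^ s * t) * r by ring, pow_mul]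
    have h2 : ∀ k : ℕ, ((σ ^ (2 ^ s * t)) ^ k) ζ' = ζ' := by
      intro k
      induction k with
      | zero => simp
      | succ k ih => rw [pow_succ, AlgEquiv.mul_apply, hst, ih]
    exact h2 r
  have h3 : ((σ ^ m) ^ j) x = x := by
    have h4 : ∀ k : ℕ, ((σ ^ m) ^ k) ζ = ζ := by
      intro k
      induction k with
      | zero => simp
      | succ k ih => rw [pow_succ, AlgEquiv.mul_apply, h, ih]
    have h5 := (fix_iff ζ _).mpr (h4 j)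
    exact (IntermediateField.mem_fixingSubgroup_iff _ _).mp h5 x hx2
  rw [hj, pow_add, pow_one, pow_mul, AlgEquiv.mul_apply, h3] at h1
  exact h1

end two

end Pool.Agent.H570
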