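import Mathlib

set_option autoImplicit false

/-!
# Local degrees of roots of unity over completions with prime residue field
-/

namespace Pool.Agent.H570

open Polynomial IsDedekindDomain IsDedekindDomain.HeightOneSpectrum NumberField
open scoped WithZero

section

variable {K : Type*} [Field K] [NumberField K] (v : HeightOneSpectrum (𝓞 K))

lemma mem_max_iff (y : v.adicCompletionIntegers K) :
    y ∈ IsLocalRing.maximalIdeal (v.adicCompletionIntegers K) ↔
      Valued.v (y : v.adicCompletion K) < 1 :=
  Valuation.mem_maximalIdeal_iff _ _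

/-- every element of the completed integers is congruent to an element of the ring of integers -/
lemma exists_int_close (x : v.adicCompletionIntegers K) :
    ∃ a : 𝓞 K, x - algebraMap (𝓞 K) (v.adicCompletionIntegers K) a ∈
      IsLocalRing.maximalIdeal (v.adicCompletionIntegers K) := by
  have hd := denseRange_algebraMap (R := 𝓞 K) (K := K) (v := v)
  have hopen : IsOpen {y : v.adicCompletion K | Valued.v (y - (x : v.adicCompletion K)) < 1} := by
    have h1 := (Valued.isOpen_ball (v.adicCompletion K) 1).preimage
      (continuous_id.sub (continuous_const (y := (x : v.adicCompletion K))))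
    convert h1 using 1
    ext y
    simp [Valuation.restrict_lt_one_iff]
  obtain ⟨r, hr⟩ := hd.exists_mem_open hopen ⟨x, by simp⟩
  simp only [Set.mem_ofPred_eq] at hr
  have hx : Valued.v (x : v.adicCompletion K) ≤ 1 := x.2
  have hr1 : Valued.v (algebraMap K (v.adicCompletion K) r) ≤ 1 := by
    have e : algebraMap K (v.adicCompletion K) r =
      (algebraMap K (v.adicCompletion K) r - (x : v.adicCompletion K)) + x := by ring
    rw [e]
    exact (Valuation.map_add _ _ _).trans (max_le hr.le hx)
  have hr2 : v.valuation K r ≤ 1 := by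
    rw [← valuedAdicCompletion_eq_valuation']
    exact hr1
  obtain ⟨a, ha⟩ := exists_valuation_sub_lt_of_integer v hr2 1
  refine ⟨a, ?_⟩
  rw [mem_max_iff]
  have ha2 : Valued.v (algebraMap K (v.adicCompletion K) (algebraMap (𝓞 K) K a - r)) < 1 := by
    have := valuedAdicCompletion_eq_valuation' (v := v) (algebraMap (𝓞 K) K a - r)
    have h2 : Valued.v (algebraMap K (v.adicCompletion K) (algebraMap (𝓞 K) K a - r)) =
      v.valuation K (algebraMap (𝓞 K) K a - r) := this
    rw [h2]
    simpa using ha
  have e : ((x - algebraMap (𝓞 K) (v.adicCompletionIntegers K) a :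
      v.adicCompletionIntegers K) : v.adicCompletion K) =
      -((algebraMap K (v.adicCompletion K) r - (x : v.adicCompletion K)) +
        algebraMap K (v.adicCompletion K) (algebraMap (𝓞 K) K a - r)) := by
    have e1 : ((algebraMap (𝓞 K) (v.adicCompletionIntegers K) a : v.adicCompletionIntegers K) :
      v.adicCompletion K) = algebraMap K (v.adicCompletion K) (algebraMap (𝓞 K) K a) := rfl
    rw [AddSubgroupClass.coe_sub, e1, map_sub]
    ring
  rw [e, Valuation.map_neg]
  exact Valuation.map_add_lt _ hr ha2

lemma algebraMap_mem_max (a : 𝓞 K) (ha : a ∈ v.asIdeal) :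
    algebraMap (𝓞 K) (v.adicCompletionIntegers K) a ∈
      IsLocalRing.maximalIdeal (v.adicCompletionIntegers K) := by
  rw [mem_max_iff]
  have := valuedAdicCompletion_eq_valuation' (v := v) (algebraMap (𝓞 K) K a)
  have h2 : Valued.v (((algebraMap (𝓞 K) (v.adicCompletionIntegers K) a :
    v.adicCompletionIntegers K)) : v.adicCompletion K) =
      v.valuation K (algebraMap (𝓞 K) K a) := this
  rw [h2, valuation_lt_one_iff_mem]
  exact ha

/-- the residue field has `p` elements -/
lemma card_residue (p : ℕ) (hp : p.Prime) (hpv : (p : 𝓞 K) ∈ v.asIdeal)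
    (hsurj : ∀ a : 𝓞 K, ∃ n : ℤ, a - (n : 𝓞 K) ∈ v.asIdeal) :
    Nat.card (IsLocalRing.ResidueField (v.adicCompletionIntegers K)) = p := by
  set k := IsLocalRing.ResidueField (v.adicCompletionIntegers K)
  have hp0 : (p : k) = 0 := by
    have h1 : IsLocalRing.residue (v.adicCompletionIntegers K)
      (algebraMap (𝓞 K) (v.adicCompletionIntegers K) (p : 𝓞 K)) = 0 := by
      rw [IsLocalRing.residue_eq_zero_iff]
      exact algebraMap_mem_max v _ hpv
    rw [map_natCast, map_natCast] at h1
    exact h1
  have : Fact p.Prime := ⟨hp⟩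
  have hchar : CharP k p := by
    have h := CharP.ringChar_of_prime_eq_zero hp hp0
    rw [← h]
    infer_instance
  have hs : Function.Surjective (ZMod.castHom (dvd_refl p) k) := by
    intro y
    obtain ⟨x, rfl⟩ := IsLocalRing.residue_surjective y
    obtain ⟨a, ha⟩ := exists_int_close v x
    obtain ⟨n, hn⟩ := hsurj a
    refine ⟨(n : ZMod p), ?_⟩
    rw [map_intCast]
    have h1 := algebraMap_mem_max v _ hn
    have h2 := (IsLocalRing.maximalIdeal (v.adicCompletionIntegers K)).add_mem ha h1
    rw [map_sub, map_intCast, sub_add_sub_cancel] at h2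
    rw [← IsLocalRing.residue_eq_zero_iff, map_sub, map_intCast, sub_eq_zero] at h2
    exact h2.symm
  have hb : Function.Bijective (ZMod.castHom (dvd_refl p) k) := ⟨RingHom.injective _, hs⟩
  rw [← Nat.card_congr (Equiv.ofBijective _ hb), Nat.card_zmod]

/-- a monic divisor of a cyclotomic polynomial over a prime field has degree divisible by the
order -/
lemma orderOf_dvd_natDegree {k : Type*} [Field k] [Finite k] (p : ℕ) (hp : p.Prime)
    (hk : Nat.card k = p) (n : ℕ) (hn : p.Coprime n) (g : k[X]) (hg : g ∣ cyclotomic n k)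
    (hg0 : g.Monic) : orderOf (ZMod.unitOfCoprime p hn) ∣ g.natDegree := by
  have : Fact p.Prime := ⟨hp⟩
  have := Fintype.ofFinite k
  have hK : Fintype.card k = p ^ 1 := by rw [pow_one, ← Nat.card_eq_fintype_card, hk]
  classical
  have h1 : ∀ P ∈ UniqueFactorizationMonoid.normalizedFactors g,
      orderOf (ZMod.unitOfCoprime p hn) ∣ P.natDegree := by
    intro P hP
    have hd : P ∣ cyclotomic n k :=
      (UniqueFactorizationMonoid.dvd_of_mem_normalizedFactors hP).trans hg
    have h2 := natDegree_of_dvd_cyclotomic_of_irreducible hK hn hd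
      (UniqueFactorizationMonoid.irreducible_of_normalized_factor P hP)
    rw [h2]
    have e : ZMod.unitOfCoprime (p ^ 1) (hn.pow_left 1) = ZMod.unitOfCoprime p hn := by
      ext
      simp
    rw [e]
  have h3 := UniqueFactorizationMonoid.prod_normalizedFactors_eq hg0.ne_zero
  rw [hg0.normalize_eq_self] at h3
  rw [← h3, natDegree_multiset_prod_of_monic]
  · exact Multiset.dvd_sum (by
      intro x hx
      obtain ⟨P, hP, rfl⟩ := Multiset.mem_map.mp hx
      exact h1 P hP)
  · intro P hP
    have h4 := UniqueFactorizationMonoid.normalize_normalized_factor P hP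
    have h5 : P ≠ 0 := (UniqueFactorizationMonoid.irreducible_of_normalized_factor P hP).ne_zero
    rw [← h4]
    exact monic_normalize h5

/-- the degree of a root of unity over the completion -/
theorem local_degree (p : ℕ) (hp : p.Prime) (hpv : (p : 𝓞 K) ∈ v.asIdeal)
    (hsurj : ∀ a : 𝓞 K, ∃ n : ℤ, a - (n : 𝓞 K) ∈ v.asIdeal)
    {Ω : Type*} [Field Ω] [Algebra (v.adicCompletion K) Ω] (n : ℕ) (hn : p.Coprime n)
    (hn0 : 0 < n) (ζ : Ω) (hζ : IsPrimitiveRoot ζ n) :
    orderOf (ZMod.unitOfCoprime p hn) ∣ (minpoly (v.adicCompletion K) ζ).natDegree := by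
  let R := v.adicCompletionIntegers K
  let _ : Algebra R Ω := ((algebraMap (v.adicCompletion K) Ω).comp (algebraMap R
    (v.adicCompletion K))).toAlgebra
  have : IsScalarTower R (v.adicCompletion K) Ω := IsScalarTower.of_algebraMap_eq fun _ => rfl
  have hint : IsIntegral R ζ := by
    refine ⟨X ^ n - 1, monic_X_pow_sub_C 1 hn0.ne', ?_⟩
    simp [hζ.pow_eq_one]
  have htf : Module.IsTorsionFree R Ω := by
    rw [Module.isTorsionFree_iff_algebraMap_injective]
    exact (algebraMap (v.adicCompletion K) Ω).injective.comp Subtype.val_injective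
  have h1 := minpoly.isIntegrallyClosed_eq_field_fractions' (v.adicCompletion K) hint
  have hmon := minpoly.monic hint
  rw [h1, hmon.natDegree_map]
  have hdvd : minpoly R ζ ∣ cyclotomic n R := by
    apply minpoly.isIntegrallyClosed_dvd hint
    rw [aeval_def, eval₂_eq_eval_map, map_cyclotomic]
    exact (hζ.isRoot_cyclotomic hn0)
  have hcard := card_residue v p hp hpv hsurj
  have hfin : Finite (IsLocalRing.ResidueField (v.adicCompletionIntegers K)) := by
    apply Nat.finite_of_card_ne_zero
    rw [hcard]
    exact hp.ne_zero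
  have h2 := orderOf_dvd_natDegree p hp hcard n hn
    ((minpoly R ζ).map (IsLocalRing.residue R)) (by
      rw [← map_cyclotomic n (IsLocalRing.residue R)]
      exact Polynomial.map_dvd _ hdvd) (hmon.map _)
  rwa [hmon.natDegree_map] at h2

end

end Pool.Agent.H570
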