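import Mathlib
import Pool.Agent.H570.Cyc
import Pool.Agent.H58W.HtNorth
import Pool.Agent.H58W.HtLimit

set_option autoImplicit false

/-!
# The gap principle
-/

namespace Pool.Agent.H570

open IntermediateField Polynomial NumberField Height

attribute [local instance high] IntermediateField.algebra'

section

variable {M M' : ℕ} [NeZero M] [NeZero M'] {ζ ζ' : Qb} (hζ : IsPrimitiveRoot ζ M)
  (hζ' : IsPrimitiveRoot ζ' M')

include hζ' in
/-- integers of the cyclotomic field are integral polynomials in the root of unity -/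
lemma exists_poly (β : Qb) (hβ : β ∈ ℚ⟮ζ'⟯) (hint : IsIntegral ℤ β) :
    ∃ P : ℤ[X], aeval ζ' P = β := by
  have hc : IsCyclotomicExtension {M'} ℚ ℚ⟮ζ'⟯ := hζ'.intermediateField_adjoin_isCyclotomicExtension ℚ
  have hg : IsPrimitiveRoot (AdjoinSimple.gen ℚ ζ') M' :=
    IsPrimitiveRoot.coe_submonoidClass_iff.mp hζ'
  have hc2 : @IsCyclotomicExtension {M'} ℚ ↥ℚ⟮ζ'⟯ _ _ DivisionRing.toRatAlgebra := hc
  have h1 := @IsCyclotomicExtension.Rat.isIntegralClosure_adjoin_singleton M' ↥ℚ⟮ζ'⟯ _ _ _ _ hc2 hg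
  have h2 : IsIntegral ℤ (⟨β, hβ⟩ : ℚ⟮ζ'⟯) := by
    have h3 : Function.Injective (algebraMap ℚ⟮ζ'⟯ Qb) := (algebraMap ℚ⟮ζ'⟯ Qb).injective
    rw [← isIntegral_algebraMap_iff h3]
    exact hint
  obtain ⟨y, hy⟩ := h1.isIntegral_iff.mp h2
  obtain ⟨y, hy2⟩ := y
  have h3 := hy2
  rw [Algebra.adjoin_singleton_eq_range_aeval] at h3
  obtain ⟨P, hP⟩ := h3
  refine ⟨P, ?_⟩
  have h4 : aeval (AdjoinSimple.gen ℚ ζ') P = (⟨β, hβ⟩ : ℚ⟮ζ'⟯) := by
    rw [← hy]
    exact hP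
  have h5 := congrArg (algebraMap ℚ⟮ζ'⟯ Qb) h4
  rw [← aeval_algebraMap_apply] at h5
  exact h5

include hζ hζ' in
/-- an automorphism fixing the smaller cyclotomic field moves integers by elements some power of
which is divisible by the prime -/
lemma exists_dvd (l : ℕ) (hl : l.Prime) (hl2 : Odd l) (hM : M' = M * l) (σ : Qb ≃ₐ[ℚ] Qb)
    (hσ : σ ζ = ζ) (β : Qb) (hβ : β ∈ ℚ⟮ζ'⟯) (hint : IsIntegral ℤ β) :
    ∃ δ : Qb, IsIntegral ℤ δ ∧ (β - σ β) ^ l = l * δ := by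
  obtain ⟨P, hP⟩ := exists_poly hζ' β hβ hint
  have hz : IsIntegral ℤ ζ' := hζ'.isIntegral (NeZero.pos M')
  have hw : IsIntegral ℤ (σ ζ') := hz.map (σ : Qb →ₐ[ℚ] Qb).toRingHom.toIntAlgHom
  let A := integralClosure ℤ Qb
  let z : A := ⟨ζ', hz⟩
  let w : A := ⟨σ ζ', hw⟩
  have h1 : z ^ l = w ^ l := by
    apply Subtype.ext
    show ζ' ^ l = (σ ζ') ^ l
    rw [← map_pow]
    have h2 : (ζ' ^ l) ^ M = 1 := by
      rw [← pow_mul, mul_comm, ← hM, hζ'.pow_eq_one]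
    obtain ⟨i, _, hi⟩ := hζ.eq_pow_of_pow_eq_one h2
    rw [← hi, map_pow, hσ]
  obtain ⟨r', hr⟩ := exists_add_pow_prime_eq hl z (-w)
  set r : A := z * -w * r' with hrdef
  have h2 : (z - w) ^ l = (l : A) * r := by
    rw [sub_eq_add_neg, hr, hl2.neg_pow, h1, hrdef]
    ring
  have h3 : (z - w) ∣ (P.map (algebraMap ℤ A)).eval z - (P.map (algebraMap ℤ A)).eval w :=
    sub_dvd_eval_sub z w _
  obtain ⟨q, hq⟩ := h3
  have h4 : (((P.map (algebraMap ℤ A)).eval z : A) : Qb) = β := by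
    rw [← hP, eval_map_algebraMap]
    exact (aeval_algebraMap_apply Qb z P).symm
  have h5 : (((P.map (algebraMap ℤ A)).eval w : A) : Qb) = σ β := by
    rw [← hP, eval_map_algebraMap]
    have h6 : aeval (σ ζ') P = σ (aeval ζ' P) := by
      exact aeval_algHom_apply (σ : Qb →ₐ[ℚ] Qb).toRingHom.toIntAlgHom ζ' P
    rw [← h6]
    exact (aeval_algebraMap_apply Qb w P).symm
  refine ⟨((r * q ^ l : A) : Qb), (r * q ^ l : A).2, ?_⟩
  rw [← h5, ← h4]
  have h7 := congrArg (fun a : A => (a ^ l)) hq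
  simp only [mul_pow, h2] at h7
  have h8 := congrArg (fun a : A => (a : Qb)) h7
  push_cast at h8 ⊢
  rw [h8]
  ring

end

/-- the key inequality, in a number field -/
lemma gap_core {N : Type*} [Field N] [NumberField N] (τ : N ≃+* N) (l : ℕ) (hl : l.Prime)
    (h : ∀ β : N, IsIntegral ℤ β → ∃ δ : N, IsIntegral ℤ δ ∧ (β - τ β) ^ l = l * δ) (x : N)
    (hx : τ x ≠ x) : (l : ℝ) ≤ (2 * mulHeight₁ x ^ 2) ^ (Module.finrank ℚ N) := by
  obtain ⟨n, hn0, hn1, hn2⟩ := exists_nat_le_mulHeight₁ x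
  set H := mulHeight₁ x with hH
  have hH1 : 1 ≤ H := one_le_mulHeight₁ x
  set γ : N := n * x - τ (n * x) with hγ
  have hγe : γ = n * (x - τ x) := by
    rw [hγ, map_mul, map_natCast]
    ring
  have hγ0 : γ ≠ 0 := by
    rw [hγe]
    apply mul_ne_zero (by exact_mod_cast hn0)
    exact sub_ne_zero.mpr (Ne.symm hx)
  obtain ⟨δ, hδ, hδ2⟩ := h (n * x) hn2
  have hγint : IsIntegral ℤ γ := by
    apply hn2.sub
    exact hn2.map (τ : N →+* N).toIntAlgHom
  have hc : IsIntegral ℤ (Algebra.norm ℚ γ) := Algebra.isIntegral_norm ℚ hγint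
  have hd : IsIntegral ℤ (Algebra.norm ℚ δ) := Algebra.isIntegral_norm ℚ hδ
  obtain ⟨c, hc⟩ := IsIntegrallyClosed.isIntegral_iff.mp hc
  obtain ⟨d, hd⟩ := IsIntegrallyClosed.isIntegral_iff.mp hd
  have hc' : (c : ℚ) = Algebra.norm ℚ γ := hc
  have hd' : (d : ℚ) = Algebra.norm ℚ δ := hd
  have hD : 0 < Module.finrank ℚ N := Module.finrank_pos
  have h1 : c ^ l = (l : ℤ) ^ (Module.finrank ℚ N) * d := by
    rw [← hγ] at hδ2
    have h2 := congrArg (Algebra.norm ℚ) hδ2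
    rw [map_pow, map_mul, ← hc', ← hd'] at h2
    have h3 : Algebra.norm ℚ (l : N) = (l : ℚ) ^ (Module.finrank ℚ N) := by
      have := Algebra.norm_algebraMap (S := N) (l : ℚ)
      rwa [map_natCast] at this
    rw [h3] at h2
    exact_mod_cast h2
  have hlp : Prime (l : ℤ) := Nat.prime_iff_prime_int.mp hl
  have h2 : (l : ℤ) ∣ c := by
    apply hlp.dvd_of_dvd_pow (n := l)
    rw [h1]
    exact Dvd.dvd.mul_right (dvd_pow_self _ hD.ne') _
  have hc0 : c ≠ 0 := by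
    intro h0
    rw [h0, Int.cast_zero] at hc'
    exact hγ0 (Algebra.norm_eq_zero_iff.mp hc'.symm)
  have h3 : (l : ℤ) ≤ |c| := by
    apply Int.le_of_dvd (abs_pos.mpr hc0)
    exact (dvd_abs _ _).mpr h2
  have h4 : ‖algebraMap ℚ ℂ (Algebra.norm ℚ γ)‖ ≤ (2 * H ^ 2) ^ (Module.finrank ℚ N) := by
    rw [Algebra.norm_eq_prod_embeddings ℚ ℂ γ, norm_prod, ← AlgHom.card ℚ N ℂ, ← Finset.card_univ,
      ← Finset.prod_const]
    apply Finset.prod_le_prod (fun _ _ => norm_nonneg _)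
    intro φ _
    have h5 : ‖(φ : N →+* ℂ) x‖ ≤ H := Pool.Agent.H58W.norm_embedding_le_mulHeight₁ x (φ : N →+* ℂ)
    have h6 : ‖((φ : N →+* ℂ).comp (τ : N →+* N)) x‖ ≤ H :=
      Pool.Agent.H58W.norm_embedding_le_mulHeight₁ x ((φ : N →+* ℂ).comp (τ : N →+* N))
    have h7 : φ γ = n * (φ x - φ (τ x)) := by
      rw [hγe, map_mul, map_natCast, map_sub]
    rw [h7, norm_mul, Complex.norm_natCast]
    have h8 : ‖φ x - φ (τ x)‖ ≤ 2 * H := by
      refine (norm_sub_le _ _).trans ?_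
      have h9 : ‖φ x‖ ≤ H := h5
      have h10 : ‖φ (τ x)‖ ≤ H := h6
      linarith
    calc (n : ℝ) * ‖φ x - φ (τ x)‖ ≤ H * (2 * H) :=
          mul_le_mul hn1 h8 (norm_nonneg _) (by linarith)
      _ = 2 * H ^ 2 := by ring
  rw [← hc', eq_ratCast, Rat.cast_intCast, Complex.norm_intCast] at h4
  refine le_trans ?_ h4
  have : ((l : ℤ) : ℝ) ≤ ((|c| : ℤ) : ℝ) := by exact_mod_cast h3
  rw [Int.cast_abs] at this
  exact_mod_cast this

open Pool.Agent.Helper259.AbsHt in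
/-- the gap principle -/
theorem gap {M M' : ℕ} [NeZero M] [NeZero M'] {ζ ζ' : Qb} (hζ : IsPrimitiveRoot ζ M)
    (hζ' : IsPrimitiveRoot ζ' M') (l : ℕ) (hl : l.Prime) (hl2 : Odd l) (hM : M' = M * l)
    (x : Qb) (hx : x ∈ KK hζ') (hx2 : x ∉ KK hζ) (D : ℕ) (hD : Module.finrank ℚ (KK hζ') ≤ D) :
    Real.log l ≤ D * Real.log 2 + 2 * D ^ 2 * absLogHeight ![1, x] := by
  have hx3 : x ∉ ℚ⟮ζ⟯ := fun h => hx2 (mem_KK_of_mem hζ hζ' x hx h)
  obtain ⟨σ, hσ, hσx⟩ : ∃ σ : Qb ≃ₐ[ℚ] Qb, σ ζ = ζ ∧ σ x ≠ x := by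
    by_contra hcon
    push Not at hcon
    apply hx3
    rw [← InfiniteGalois.fixedField_fixingSubgroup (k := ℚ) (K := Qb) ℚ⟮ζ⟯, mem_fixedField_iff]
    intro σ hσ
    exact hcon σ ((fix_iff ζ σ).mp hσ)
  have hfd := finDimKK hζ'
  have hgal := isGaloisKK hζ'
  have hN : NumberField (KK hζ') :=
    { to_charZero := inferInstance
      to_finiteDimensional := hfd }
  let τ : KK hζ' ≃+* KK hζ' := (σ.restrictNormal (KK hζ')).toRingEquiv
  have hτ : ∀ y : KK hζ', ((τ y : KK hζ') : Qb) = σ y := fun y =>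
    AlgEquiv.restrictNormal_commutes σ (KK hζ') y
  have h1 := gap_core (N := KK hζ') τ l hl (by
    intro β hβ
    have hβ' : IsIntegral ℤ (β : Qb) := by
      have h3 : Function.Injective (algebraMap (KK hζ') Qb) := (algebraMap (KK hζ') Qb).injective
      exact (isIntegral_algebraMap_iff h3).mpr hβ
    obtain ⟨δ, hδ, hδ2⟩ := exists_dvd hζ hζ' l hl hl2 hM σ hσ β (KK_le hζ' β.2) hβ'
    have hl0 : (l : Qb) ≠ 0 := by exact_mod_cast hl.ne_zero
    have hδm : δ ∈ KK hζ' := by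
      have e : δ = (((β - τ β) ^ l / (l : KK hζ') : KK hζ') : Qb) := by
        push_cast
        rw [hτ, hδ2]
        field_simp
      rw [e]
      exact SetLike.coe_mem _
    refine ⟨⟨δ, hδm⟩, ?_, ?_⟩
    · have h3 : Function.Injective (algebraMap (KK hζ') Qb) := (algebraMap (KK hζ') Qb).injective
      rw [← isIntegral_algebraMap_iff h3]
      exact hδ
    · apply Subtype.ext
      push_cast
      rw [hτ, hδ2]) ⟨x, hx⟩ (by
    intro h
    apply hσx
    rw [← hτ ⟨x, hx⟩, h])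
  have hval := val_eq (KK hζ') ![1, ⟨x, hx⟩]
  have e : (fun i => ((![1, (⟨x, hx⟩ : KK hζ')] i : KK hζ') : Qb)) = ![1, x] := by
    funext i
    fin_cases i
    · simp
    · simp
  rw [e] at hval
  set D₀ := Module.finrank ℚ (KK hζ') with hD₀
  have hD₀pos : 0 < D₀ := Module.finrank_pos
  have h2 : logHeight₁ (⟨x, hx⟩ : KK hζ') = D₀ * absLogHeight ![1, x] := by
    rw [logHeight₁_eq_logHeight, logHeight_swap, hval]
    have : (D₀ : ℝ) ≠ 0 := by exact_mod_cast hD₀pos.ne'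
    field_simp
  have h3 := Real.log_le_log (by exact_mod_cast hl.pos) h1
  have hH := mulHeight₁_pos (⟨x, hx⟩ : KK hζ')
  rw [Real.log_pow, Real.log_mul (by norm_num) (by positivity), Real.log_pow,
    ← logHeight₁_eq_log_mulHeight₁, h2] at h3
  have hnn : 0 ≤ absLogHeight ![1, x] := absLogHeight_nonneg _
  have hDD : (D₀ : ℝ) ≤ D := by exact_mod_cast hD
  have hlog2 : 0 ≤ Real.log 2 := Real.log_nonneg (by norm_num)
  calc Real.log l ≤ (D₀ : ℝ) * (Real.log 2 + (2 : ℕ) * (D₀ * absLogHeight ![1, x])) := h3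
    _ = D₀ * Real.log 2 + 2 * (D₀ : ℝ) ^ 2 * absLogHeight ![1, x] := by push_cast; ring
    _ ≤ D * Real.log 2 + 2 * (D : ℝ) ^ 2 * absLogHeight ![1, x] := by gcongr

end Pool.Agent.H570
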