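import Mathlib

set_option autoImplicit false

/-!
# Choice of the primes
-/

namespace Pool.Agent.H570

lemma exists_prime (p : ℕ) (hp : p.Prime) (hp2 : p ≠ 2) (k : ℕ) (hk : 2 ≤ k) (B : ℕ) :
    ∃ l : ℕ, l.Prime ∧ B < l ∧ l ≡ 1 + 2 ^ k [MOD 2 ^ (k + 1)] ∧ ¬ IsSquare (p : ZMod l) := by
  have : Fact p.Prime := ⟨hp⟩
  obtain ⟨a, ha⟩ := FiniteField.exists_nonsquare (F := ZMod p) (by rwa [ZMod.ringChar_zmod_n])
  have hcop : (2 ^ (k + 1)).Coprime p := by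
    apply Nat.Coprime.pow_left
    rw [Nat.coprime_primes Nat.prime_two hp]
    exact hp2.symm
  obtain ⟨c, hc1, hc2⟩ := Nat.chineseRemainder hcop (1 + 2 ^ k) a.val
  have ha0 : a ≠ 0 := by
    rintro rfl
    exact ha (IsSquare.zero)
  have hc1' : c.Coprime (2 ^ (k + 1)) := by
    apply Nat.Coprime.pow_right
    rw [Nat.coprime_two_right]
    have h1 : c ≡ 1 + 2 ^ k [MOD 2] := hc1.of_dvd (dvd_pow_self 2 (by omega))
    have h2 : 2 ^ k ≡ 0 [MOD 2] := (Nat.modEq_zero_iff_dvd).mpr (dvd_pow_self 2 (by omega))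
    have h3 : c ≡ 1 + 0 [MOD 2] := h1.trans (Nat.ModEq.add_left 1 h2)
    rw [Nat.odd_iff]
    exact h3
  have hc2' : c.Coprime p := by
    rw [Nat.coprime_comm, hp.coprime_iff_not_dvd]
    intro hd
    have h1 : a.val ≡ 0 [MOD p] := hc2.symm.trans ((Nat.modEq_zero_iff_dvd).mpr hd)
    apply ha0
    rw [← ZMod.natCast_zmod_val a]
    exact (ZMod.natCast_eq_zero_iff _ _).mpr ((Nat.modEq_zero_iff_dvd).mp h1)
  have hu : c.Coprime (2 ^ (k + 1) * p) := Nat.Coprime.mul_right hc1' hc2'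
  have : NeZero (2 ^ (k + 1) * p) := ⟨mul_ne_zero (by positivity) hp.ne_zero⟩
  obtain ⟨l, hBl, hl, hlc⟩ := Nat.forall_exists_prime_gt_and_eq_mod
    (q := 2 ^ (k + 1) * p) (a := (c : ZMod (2 ^ (k + 1) * p)))
    ((ZMod.isUnit_iff_coprime c _).mpr hu) B
  have hlc' : l ≡ c [MOD 2 ^ (k + 1) * p] := (ZMod.natCast_eq_natCast_iff _ _ _).mp hlc
  have h1 : l ≡ 1 + 2 ^ k [MOD 2 ^ (k + 1)] :=
    (hlc'.of_dvd (dvd_mul_right _ _)).trans hc1
  refine ⟨l, hl, hBl, h1, ?_⟩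
  have : Fact l.Prime := ⟨hl⟩
  have h4 : l % 4 = 1 := by
    have h2 : l ≡ 1 + 2 ^ k [MOD 4] := h1.of_dvd (by
      rw [show (4 : ℕ) = 2 ^ 2 by norm_num]
      exact pow_dvd_pow 2 (by omega))
    have h3 : 2 ^ k ≡ 0 [MOD 4] := (Nat.modEq_zero_iff_dvd).mpr (by
      rw [show (4 : ℕ) = 2 ^ 2 by norm_num]
      exact pow_dvd_pow 2 hk)
    exact h2.trans (Nat.ModEq.add_left 1 h3)
  rw [ZMod.exists_sq_eq_prime_iff_of_mod_four_eq_one h4 hp2]
  have h5 : (l : ZMod p) = a := by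
    rw [← ZMod.natCast_zmod_val a]
    exact (ZMod.natCast_eq_natCast_iff _ _ _).mpr ((hlc'.of_dvd (dvd_mul_left _ _)).trans hc2)
  rw [h5]
  exact ha

/-- the shape of `l - 1` -/
lemma sub_one_eq (k l : ℕ) (hl1 : 1 < l) (h : l ≡ 1 + 2 ^ k [MOD 2 ^ (k + 1)]) :
    ∃ u : ℕ, Odd u ∧ l - 1 = 2 ^ k * u := by
  have h1 : l - 1 ≡ 2 ^ k [MOD 2 ^ (k + 1)] := by
    have : 1 + (l - 1) ≡ 1 + 2 ^ k [MOD 2 ^ (k + 1)] := by
      rw [show 1 + (l - 1) = l by omega]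
      exact h
    exact Nat.ModEq.add_left_cancel' 1 this
  have h2 : (l - 1) % 2 ^ (k + 1) = 2 ^ k := by
    rw [h1, Nat.mod_eq_of_lt]
    exact Nat.pow_lt_pow_right (by norm_num) (by omega)
  refine ⟨2 * ((l - 1) / 2 ^ (k + 1)) + 1, ⟨_, rfl⟩, ?_⟩
  have h3 := Nat.div_add_mod (l - 1) (2 ^ (k + 1))
  rw [h2] at h3
  rw [← h3]
  rw [Nat.mul_add_div (by positivity)]
  have h4 : 2 ^ k / 2 ^ (k + 1) = 0 := Nat.div_eq_of_lt (Nat.pow_lt_pow_right (by norm_num) (by omega))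
  rw [h4, add_zero]
  ring

/-- the order of a nonresidue -/
lemma two_pow_dvd_orderOf (p l k : ℕ) (hl : l.Prime) (hk : 0 < k)
    (h : l ≡ 1 + 2 ^ k [MOD 2 ^ (k + 1)]) (hsq : ¬ IsSquare (p : ZMod l)) (hcop : p.Coprime l) :
    2 ^ k ∣ orderOf (ZMod.unitOfCoprime p hcop) := by
  have : Fact l.Prime := ⟨hl⟩
  obtain ⟨u, hu, hlu⟩ := sub_one_eq k l hl.one_lt h
  set n := orderOf (ZMod.unitOfCoprime p hcop) with hn
  have h1 : n ∣ 2 ^ k * u := by
    rw [← hlu]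
    apply orderOf_dvd_of_pow_eq_one
    exact ZMod.units_pow_card_sub_one_eq_one l _
  have h2 : ¬ n ∣ 2 ^ (k - 1) * u := by
    intro hd
    apply hsq
    have hp0 : (p : ZMod l) ≠ 0 := by
      have := (ZMod.unitOfCoprime p hcop).ne_zero
      rwa [ZMod.coe_unitOfCoprime] at this
    rw [ZMod.euler_criterion l hp0]
    have h3 : l / 2 = 2 ^ (k - 1) * u := by
      have h4 : 2 ^ k = 2 * 2 ^ (k - 1) := by
        rw [← pow_succ']
        congr 1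
        omega
      rw [h4, mul_assoc] at hlu
      have := hl.one_lt
      omega
    rw [h3]
    have h5 := orderOf_dvd_iff_pow_eq_one.mp hd
    have h6 := congrArg Units.val h5
    rw [Units.val_pow_eq_pow_val, ZMod.coe_unitOfCoprime, Units.val_one] at h6
    exact h6
  have hn0 : n ≠ 0 := by
    intro h0
    rw [h0, zero_dvd_iff] at h1
    have : 0 < 2 ^ k * u := Nat.mul_pos (by positivity) hu.pos
    omega
  obtain ⟨j, t, ht, hjt⟩ := Nat.exists_eq_two_pow_mul_odd hn0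
  rw [hjt] at h1 h2 ⊢
  have h3 : t ∣ u := by
    have : t ∣ 2 ^ k * u := (dvd_mul_left t (2 ^ j)).trans h1
    exact Nat.Coprime.dvd_of_dvd_mul_left (Nat.Coprime.pow_right _ (Nat.coprime_two_right.mpr ht)) this
  have h4 : k ≤ j := by
    by_contra hcon
    push Not at hcon
    apply h2
    exact mul_dvd_mul (pow_dvd_pow 2 (by omega)) h3
  exact (pow_dvd_pow 2 h4).trans (dvd_mul_right _ _)

end Pool.Agent.H570
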