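import Mathlib
import Pool.Agent.H570.Gap
import Pool.Agent.H570.Prm

set_option autoImplicit false

/-!
# The tower
-/

namespace Pool.Agent.H570

open IntermediateField Polynomial NumberField Height

attribute [local instance high] IntermediateField.algebra'

open Classical in
/-- a sequence of odd primes in which each of them occurs infinitely often -/
noncomputable def q (i : ℕ) : ℕ :=
  if (Nat.unpair i).1.Prime ∧ (Nat.unpair i).1 ≠ 2 then (Nat.unpair i).1 else 3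

lemma q_prime (i : ℕ) : (q i).Prime := by
  unfold q
  split_ifs with h
  · exact h.1
  · exact Nat.prime_three

lemma q_ne_two (i : ℕ) : q i ≠ 2 := by
  unfold q
  split_ifs with h
  · exact h.2
  · norm_num

lemma exists_q (p : ℕ) (hp : p.Prime) (hp2 : p ≠ 2) (K : ℕ) : ∃ i, K ≤ i ∧ q i = p := by
  refine ⟨Nat.pair p K, Nat.right_le_pair p K, ?_⟩
  unfold q
  rw [Nat.unpair_pair, if_pos ⟨hp, hp2⟩]

lemma exists_next (i M s : ℕ) : ∃ l : ℕ, l.Prime ∧ Odd l ∧ M < l ∧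
    l ≡ 1 + 2 ^ (i + 2) [MOD 2 ^ (i + 2 + 1)] ∧ ¬ IsSquare (q i : ZMod l) ∧ (q i).Coprime l ∧
    ((2 ^ (s + (i + 2)) : ℕ) : ℝ) * Real.log 2 + 2 * ((2 ^ (s + (i + 2)) : ℕ) : ℝ) ^ 2 *
      (i * ((2 ^ (s + (i + 2)) : ℕ) : ℝ) + i) < Real.log l := by
  set R : ℝ := ((2 ^ (s + (i + 2)) : ℕ) : ℝ) * Real.log 2 + 2 * ((2 ^ (s + (i + 2)) : ℕ) : ℝ) ^ 2 *
      (i * ((2 ^ (s + (i + 2)) : ℕ) : ℝ) + i) with hR
  obtain ⟨l, hl, hB, hl1, hl2⟩ := exists_prime (q i) (q_prime i) (q_ne_two i) (i + 2) (by omega)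
    (max (max M (q i)) (max 2 ⌈Real.exp R⌉₊))
  have h1 : M < l := lt_of_le_of_lt (le_trans (le_max_left _ _) (le_max_left _ _)) hB
  have h2 : q i < l := lt_of_le_of_lt (le_trans (le_max_right _ _) (le_max_left _ _)) hB
  have h3 : 2 < l := lt_of_le_of_lt (le_trans (le_max_left _ _) (le_max_right _ _)) hB
  have h4 : ⌈Real.exp R⌉₊ < l := lt_of_le_of_lt (le_trans (le_max_right _ _) (le_max_right _ _)) hB
  refine ⟨l, hl, hl.odd_of_ne_two (by omega), h1, hl1, hl2, ?_, ?_⟩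
  · rw [Nat.coprime_primes (q_prime i) hl]
    omega
  · rw [Real.lt_log_iff_exp_lt (by exact_mod_cast hl.pos)]
    exact lt_of_le_of_lt (Nat.le_ceil _) (by exact_mod_cast h4)

/-- the data of the tower -/
structure Tower where
  M : ℕ → ℕ
  l : ℕ → ℕ
  s : ℕ → ℕ
  hM0 : M 0 = 1
  hM : ∀ i, M (i + 1) = M i * l i
  hs : ∀ i, s (i + 1) = s i + (i + 2)
  hs0 : s 0 = 0
  hl : ∀ i, (l i).Prime
  hodd : ∀ i, Odd (l i)
  hlt : ∀ i, M i < l i
  hmod : ∀ i, l i ≡ 1 + 2 ^ (i + 2) [MOD 2 ^ (i + 2 + 1)]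
  hsq : ∀ i, ¬ IsSquare (q i : ZMod (l i))
  hcop : ∀ i, (q i).Coprime (l i)
  hlog : ∀ i, ((2 ^ s (i + 1) : ℕ) : ℝ) * Real.log 2 + 2 * ((2 ^ s (i + 1) : ℕ) : ℝ) ^ 2 *
      (i * ((2 ^ s (i + 1) : ℕ) : ℝ) + i) < Real.log (l i)

lemma nonempty_tower : Nonempty Tower := by
  choose f hf using exists_next
  let st : ℕ → ℕ × ℕ := fun i => Nat.rec (1, 0)
    (fun i x => (x.1 * f i x.1 x.2, x.2 + (i + 2))) i
  have hst : ∀ i, st (i + 1) = ((st i).1 * f i (st i).1 (st i).2, (st i).2 + (i + 2)) :=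
    fun i => rfl
  refine ⟨⟨fun i => (st i).1, fun i => f i (st i).1 (st i).2, fun i => (st i).2, rfl, ?_, ?_, rfl,
    ?_, ?_, ?_, ?_, ?_, ?_, ?_⟩⟩
  · intro i
    rw [hst]
  · intro i
    rw [hst]
  · intro i
    exact (hf i _ _).1
  · intro i
    exact (hf i _ _).2.1
  · intro i
    exact (hf i _ _).2.2.1
  · intro i
    exact (hf i _ _).2.2.2.1
  · intro i
    exact (hf i _ _).2.2.2.2.1
  · intro i
    exact (hf i _ _).2.2.2.2.2.1
  · intro i
    have := (hf i (st i).1 (st i).2).2.2.2.2.2.2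
    rw [hst]
    exact this

/-- a primitive root of unity -/
lemma exists_prim (n : ℕ) [NeZero n] : ∃ ζ : Qb, IsPrimitiveRoot ζ n :=
  HasEnoughRootsOfUnity.exists_primitiveRoot Qb n

namespace Tower

variable (T : Tower)

lemma M_pos (i : ℕ) : 0 < T.M i := by
  induction i with
  | zero => rw [T.hM0]; exact Nat.one_pos
  | succ i ih => rw [T.hM]; exact Nat.mul_pos ih (T.hl i).pos

instance (i : ℕ) : NeZero (T.M i) := ⟨(T.M_pos i).ne'⟩

instance (i : ℕ) : NeZero (T.l i) := ⟨(T.hl i).ne_zero⟩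

lemma totient_M (i : ℕ) : ∃ u : ℕ, Odd u ∧ Nat.totient (T.M i) = 2 ^ (T.s i) * u := by
  induction i with
  | zero => exact ⟨1, odd_one, by rw [T.hM0, T.hs0]; rfl⟩
  | succ i ih =>
    obtain ⟨u, hu, h⟩ := ih
    obtain ⟨w, hw, hlw⟩ := sub_one_eq (i + 2) (T.l i) (T.hl i).one_lt (T.hmod i)
    refine ⟨u * w, hu.mul hw, ?_⟩
    have hc : (T.M i).Coprime (T.l i) := by
      rw [Nat.coprime_comm, (T.hl i).coprime_iff_not_dvd]
      intro hd
      exact absurd (Nat.le_of_dvd (T.M_pos i) hd) (not_le.mpr (T.hlt i))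
    rw [T.hM, Nat.totient_mul hc, h, Nat.totient_prime (T.hl i), hlw, T.hs, pow_add]
    ring

/-- the primitive roots of unity -/
noncomputable def z (i : ℕ) : Qb := (exists_prim (T.M i)).choose

lemma hz (i : ℕ) : IsPrimitiveRoot (T.z i) (T.M i) := (exists_prim (T.M i)).choose_spec

/-- the stages -/
noncomputable def K (i : ℕ) : IntermediateField ℚ Qb := KK (T.hz i)

lemma K_mono : Monotone T.K := by
  apply monotone_nat_of_le_succ
  intro i
  exact KK_mono (T.hz i) (T.hz (i + 1)) (by rw [T.hM]; exact dvd_mul_right _ _)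

lemma finrank_K (i : ℕ) : Module.finrank ℚ (T.K i) ≤ 2 ^ (T.s i) := by
  obtain ⟨u, hu, h⟩ := T.totient_M i
  exact finrank_KK_le (T.hz i) _ u h hu

open Pool.Agent.Helper259.AbsHt in
lemma gap_K (i : ℕ) (x : Qb) (hx : x ∈ T.K (i + 1)) (hx2 : x ∉ T.K i) :
    (i : ℝ) * ((2 ^ T.s (i + 1) : ℕ) : ℝ) + i < absLogHeight ![1, x] := by
  have h1 := gap (T.hz i) (T.hz (i + 1)) (T.l i) (T.hl i) (T.hodd i) (T.hM i) x hx hx2
    (2 ^ T.s (i + 1)) (T.finrank_K (i + 1))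
  have h2 := T.hlog i
  have h3 : (0 : ℝ) < 2 * ((2 ^ T.s (i + 1) : ℕ) : ℝ) ^ 2 := by positivity
  have h4 := lt_of_lt_of_le h2 h1
  have h5 : 2 * ((2 ^ T.s (i + 1) : ℕ) : ℝ) ^ 2 *
      (i * ((2 ^ T.s (i + 1) : ℕ) : ℝ) + i) < 2 * ((2 ^ T.s (i + 1) : ℕ) : ℝ) ^ 2 *
        absLogHeight ![1, x] := by linarith
  exact lt_of_mul_lt_mul_left h5 h3.le

/-- the field -/
noncomputable def F : IntermediateField ℚ Qb := ⨆ i, T.K i

lemma mem_F (x : Qb) : x ∈ T.F ↔ ∃ i, x ∈ T.K i := by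
  unfold F
  rw [← SetLike.mem_coe, IntermediateField.coe_iSup_of_directed T.K_mono.directed_le]
  simp

lemma degree_le (i : ℕ) (x : Qb) (hx : x ∈ T.K i) : (minpoly ℚ x).natDegree ≤ 2 ^ (T.s i) := by
  have hfd : FiniteDimensional ℚ (T.K i) := finDimKK (T.hz i)
  have h1 : minpoly ℚ (⟨x, hx⟩ : T.K i) = minpoly ℚ x := by
    rw [← minpoly.algebraMap_eq (algebraMap (T.K i) Qb).injective]
    rfl
  rw [← h1]
  exact (minpoly.natDegree_le _).trans (T.finrank_K i)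

open Pool.Agent.Helper259.AbsHt in
/-- the Northcott property with a bound growing with the degree -/
theorem northcott (m : ℕ) : {x : Qb | x ∈ T.F ∧
    absLogHeight ![1, x] ≤ m * (minpoly ℚ x).natDegree + m}.Finite := by
  have hfin := Pool.Agent.H58W.northcott (2 ^ (T.s m)) (m * (2 ^ (T.s m) : ℕ) + m)
  refine hfin.subset ?_
  rintro x ⟨hxF, hx⟩
  have hmem : x ∈ T.K m := by
    by_contra hcon
    have hex := (T.mem_F x).mp hxF
    classical
    have h1 := Nat.find_spec hex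
    have h2 : m < Nat.find hex := by
      by_contra h
      push Not at h
      exact hcon (T.K_mono h h1)
    obtain ⟨i, hi⟩ : ∃ i, Nat.find hex = i + 1 := ⟨Nat.find hex - 1, by omega⟩
    have h3 : x ∉ T.K i := Nat.find_min hex (by omega)
    rw [hi] at h1 h2
    have h4 := T.gap_K i x h1 h3
    have h5 : ((minpoly ℚ x).natDegree : ℝ) ≤ ((2 ^ T.s (i + 1) : ℕ) : ℝ) := by
      exact_mod_cast T.degree_le (i + 1) x h1
    have h6 : (m : ℝ) ≤ i := by
      have : m ≤ i := by omega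
      exact_mod_cast this
    have h7 : (m : ℝ) * (minpoly ℚ x).natDegree + m ≤ i * ((2 ^ T.s (i + 1) : ℕ) : ℝ) + i := by
      gcongr
    linarith
  have hdeg := T.degree_le m x hmem
  refine ⟨hdeg, hx.trans ?_⟩
  have : ((minpoly ℚ x).natDegree : ℝ) ≤ ((2 ^ T.s m : ℕ) : ℝ) := by exact_mod_cast hdeg
  gcongr

/-- the field is stable under the Galois group -/
lemma map_mem (σ : Qb ≃ₐ[ℚ] Qb) (x : Qb) (hx : x ∈ T.F) : σ x ∈ T.F := by
  obtain ⟨i, hi⟩ := (T.mem_F x).mp hx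
  rw [mem_F]
  refine ⟨i, ?_⟩
  unfold K at hi ⊢
  have hgal := isGaloisKK (T.hz i)
  have h1 := AlgEquiv.restrictNormal_commutes σ (KK (T.hz i)) ⟨x, hi⟩
  have h2 : σ x = ((σ.restrictNormal (KK (T.hz i))) ⟨x, hi⟩ : KK (T.hz i)) := h1.symm
  rw [h2]
  exact SetLike.coe_mem _

end Tower

end Pool.Agent.H570
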