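import Mathlib
import Pool.Agent.H570.Tow
import Pool.Agent.H570.Loc

set_option autoImplicit false

/-!
# The local degrees of the field
-/

namespace Pool.Agent.H570

open IntermediateField Polynomial NumberField

section generic

variable {A Ω : Type*} [Field A] [Field Ω] [Algebra A Ω]

lemma card_odd_of_forall {G : Type*} [Group G] [Finite G]
    (h : ∀ g : G, ∃ m : ℕ, Odd m ∧ g ^ m = 1) : Odd (Nat.card G) := by
  rw [← Nat.not_even_iff_odd, even_iff_two_dvd]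
  intro h2
  have : Fact (Nat.Prime 2) := ⟨Nat.prime_two⟩
  obtain ⟨g, hg⟩ := exists_prime_orderOf_dvd_card' 2 h2
  obtain ⟨m, hm, hgm⟩ := h g
  have h3 := orderOf_dvd_of_pow_eq_one hgm
  rw [hg] at h3
  exact (Nat.not_even_iff_odd.mpr hm) (even_iff_two_dvd.mpr h3)

lemma finrank_odd (ι : Qb →+* Ω) (l : ℕ) [NeZero l] {ζ : Qb} (hζ : IsPrimitiveRoot ζ l)
    (hA : ∀ x ∈ KK hζ, ∃ a : A, algebraMap A Ω a = ι x) :
    Odd (Module.finrank A A⟮ι ζ⟯) := by
  set ω := ι ζ with hωdef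
  have hω : IsPrimitiveRoot ω l := hζ.map_of_injective ι.injective
  have hint : IsIntegral A ω := by
    refine ⟨X ^ l - 1, monic_X_pow_sub_C 1 (NeZero.ne l), ?_⟩
    simp [hω.pow_eq_one]
  have hcyc0 := hω.adjoin_isCyclotomicExtension A
  have hcyc : IsCyclotomicExtension {l} A A⟮ω⟯ :=
    IsCyclotomicExtension.equiv {l} A _
      (Subalgebra.equivOfEq _ _ (adjoin_simple_toSubalgebra_of_isAlgebraic hint.isAlgebraic).symm)
  have hgal : IsGalois A A⟮ω⟯ := IsCyclotomicExtension.isGalois {l} A A⟮ω⟯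
  have hfd : FiniteDimensional A A⟮ω⟯ := adjoin.finiteDimensional hint
  rw [← IsGalois.card_aut_eq_finrank A A⟮ω⟯]
  apply card_odd_of_forall
  intro g
  set ωB : A⟮ω⟯ := AdjoinSimple.gen A ω with hωB
  have hωB : IsPrimitiveRoot ωB l := IsPrimitiveRoot.coe_submonoidClass_iff.mp hω
  set a : (ZMod l)ˣ := hωB.autToPow A g with ha
  have hga : ωB ^ (a : ZMod l).val = g ωB := hωB.autToPow_spec A g
  have hcop : (a : ZMod l).val.Coprime l := ZMod.val_coe_unit_coprime a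
  have hζa : IsPrimitiveRoot (ζ ^ (a : ZMod l).val) l := hζ.pow_of_coprime _ hcop
  obtain ⟨σ, hσ⟩ : ∃ σ : Qb ≃ₐ[ℚ] Qb, σ ζ = ζ ^ (a : ZMod l).val := by
    apply minpoly.exists_algEquiv_of_root' (isAlg.isAlgebraic ζ)
    have h1 := cyclotomic_eq_minpoly_rat hζ (NeZero.pos l)
    rw [← h1, aeval_def, eval₂_eq_eval_map, map_cyclotomic]
    exact hζa.isRoot_cyclotomic (NeZero.pos l)
  -- compatibility on the cyclotomic field
  have claim1 : ∀ y ∈ ℚ⟮ζ⟯, ∃ b : A⟮ω⟯, ι y = b ∧ ι (σ y) = g b := by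
    intro y hy
    have hy2 : y ∈ ℚ⟮ζ⟯.toSubalgebra := hy
    rw [adjoin_simple_toSubalgebra_of_isAlgebraic (isAlg.isAlgebraic ζ),
      Algebra.adjoin_singleton_eq_range_aeval] at hy2
    obtain ⟨P, hP⟩ := hy2
    have hP' : eval₂ (algebraMap ℚ Qb) ζ P = y := hP
    have : CharZero Ω := charZero_of_injective_ringHom ι.injective
    have : CharZero A := ⟨fun m n hmn => by
      have h1 := congrArg (algebraMap A Ω) hmn
      rw [map_natCast, map_natCast] at h1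
      exact_mod_cast h1⟩
    let ψ : ℚ →+* A⟮ω⟯ := (algebraMap A A⟮ω⟯).comp (Rat.castHom A)
    refine ⟨eval₂ ψ ωB P, ?_, ?_⟩
    · have h1 : ((eval₂ ψ ωB P : A⟮ω⟯) : Ω) = algebraMap A⟮ω⟯ Ω (eval₂ ψ ωB P) := rfl
      rw [h1, ← hP', hom_eval₂, hom_eval₂]
      have h2 : (algebraMap A⟮ω⟯ Ω).comp ψ = ι.comp (algebraMap ℚ Qb) := RingHom.ext_rat _ _
      rw [h2]
      rfl
    · have h1 : ((g (eval₂ ψ ωB P) : A⟮ω⟯) : Ω) =
        ((algebraMap A⟮ω⟯ Ω).comp (g : A⟮ω⟯ →+* A⟮ω⟯)) (eval₂ ψ ωB P) := rfl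
      have h3 : ι (σ y) = (ι.comp (σ : Qb →+* Qb)) y := rfl
      rw [h1, h3, ← hP', hom_eval₂, hom_eval₂]
      have h2 : ((algebraMap A⟮ω⟯ Ω).comp (g : A⟮ω⟯ →+* A⟮ω⟯)).comp ψ =
        (ι.comp (σ : Qb →+* Qb)).comp (algebraMap ℚ Qb) := RingHom.ext_rat _ _
      rw [h2]
      congr 1
      show ι (σ ζ) = ((g ωB : A⟮ω⟯) : Ω)
      rw [hσ, ← hga, map_pow]
      rfl
  have claim2 : ∀ x ∈ KK hζ, σ x = x := by
    intro x hx
    obtain ⟨c, hc⟩ := hA x hx
    obtain ⟨b, hb1, hb2⟩ := claim1 x (KK_le hζ hx)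
    have h1 : b = algebraMap A A⟮ω⟯ c := by
      apply Subtype.ext
      rw [← hb1, ← hc]
      rfl
    rw [h1, AlgEquiv.commutes] at hb2
    apply ι.injective
    rw [hb2, ← hc]
    rfl
  obtain ⟨m, hm, hmζ⟩ := fixes_KK hζ σ claim2
  refine ⟨m, hm, ?_⟩
  have claim3 : ∀ k : ℕ, ι ((σ ^ k) ζ) = ((g ^ k) ωB : A⟮ω⟯) := by
    intro k
    induction k with
    | zero => simp [hωdef, ωB]
    | succ k ih =>
      rw [pow_succ, AlgEquiv.mul_apply, hσ, map_pow, map_pow, ih, pow_succ, AlgEquiv.mul_apply,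
        ← hga, map_pow]
      rfl
  have h1 : (g ^ m) ωB = ωB := by
    apply Subtype.ext
    rw [← claim3 m, hmζ]
    rfl
  have h2 : hωB.autToPow A (g ^ m) = hωB.autToPow A 1 := by
    have h3 := hωB.autToPow_spec A (g ^ m)
    rw [h1] at h3
    have h4 := hωB.autToPow_spec A (1 : A⟮ω⟯ ≃ₐ[A] A⟮ω⟯)
    rw [AlgEquiv.one_apply] at h4
    apply Units.ext
    apply ZMod.val_injective
    exact hωB.pow_inj (ZMod.val_lt _) (ZMod.val_lt _) (h3.trans h4.symm)
  exact hωB.autToPow_injective A h2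
/-- images of elements of a cyclotomic field -/
lemma image_mem (ι : Qb →+* Ω) (ζ x : Qb) (hx : x ∈ ℚ⟮ζ⟯) : ι x ∈ A⟮ι ζ⟯ := by
  have hy2 : x ∈ ℚ⟮ζ⟯.toSubalgebra := hx
  rw [adjoin_simple_toSubalgebra_of_isAlgebraic (isAlg.isAlgebraic ζ),
    Algebra.adjoin_singleton_eq_range_aeval] at hy2
  obtain ⟨P, hP⟩ := hy2
  have hP' : eval₂ (algebraMap ℚ Qb) ζ P = x := hP
  have : CharZero Ω := charZero_of_injective_ringHom ι.injective
  have : CharZero A := ⟨fun m n hmn => by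
    have h1 := congrArg (algebraMap A Ω) hmn
    rw [map_natCast, map_natCast] at h1
    exact_mod_cast h1⟩
  rw [← hP', hom_eval₂]
  have h2 : ι.comp (algebraMap ℚ Qb) = (algebraMap A Ω).comp (Rat.castHom A) :=
    RingHom.ext_rat _ _
  rw [h2, ← eval₂_map, ← aeval_def]
  exact algebra_adjoin_le_adjoin A {ι ζ} (aeval_mem_adjoin_singleton A (ι ζ))

/-- a power of two dividing the degree of the root of unity divides the degree of the image of
the maximal 2-extension -/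
lemma two_pow_dvd (ι : Qb →+* Ω) (l : ℕ) [NeZero l] {ζ : Qb} (hζ : IsPrimitiveRoot ζ l) (n : ℕ)
    (hn : 2 ^ n ∣ (minpoly A (ι ζ)).natDegree) :
    2 ^ n ∣ Module.finrank A (adjoin A (ι '' (KK hζ : Set Qb))) := by
  set A' := adjoin A (ι '' (KK hζ : Set Qb)) with hA'
  have hω : IsPrimitiveRoot (ι ζ) l := hζ.map_of_injective ι.injective
  have hint : IsIntegral A (ι ζ) := by
    refine ⟨X ^ l - 1, monic_X_pow_sub_C 1 (NeZero.ne l), ?_⟩
    simp [hω.pow_eq_one]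
  have hodd : Odd (Module.finrank A' A'⟮ι ζ⟯) := by
    apply finrank_odd ι l hζ
    intro x hx
    exact ⟨⟨ι x, subset_adjoin A _ ⟨x, hx, rfl⟩⟩, rfl⟩
  have h1 : (A'⟮ι ζ⟯).restrictScalars A = A⟮ι ζ⟯ := by
    rw [hA', adjoin_adjoin_left]
    apply le_antisymm
    · rw [adjoin_le_iff]
      rintro y (⟨x, hx, rfl⟩ | hy)
      · exact image_mem ι ζ x (KK_le hζ hx)
      · rw [Set.mem_singleton_iff] at hy
        rw [hy]
        exact mem_adjoin_simple_self A (ι ζ)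
    · exact adjoin.mono _ _ _ Set.subset_union_right
  have h2 : Module.finrank A A' * Module.finrank A' A'⟮ι ζ⟯ = Module.finrank A A'⟮ι ζ⟯ :=
    Module.finrank_mul_finrank A A' A'⟮ι ζ⟯
  have h3 : Module.finrank A A'⟮ι ζ⟯ = Module.finrank A A⟮ι ζ⟯ := by
    rw [← h1]
    rfl
  rw [h3, adjoin.finrank hint] at h2
  rw [← h2] at hn
  exact Nat.Coprime.dvd_of_dvd_mul_right
    (Nat.Coprime.pow_left _ (Nat.coprime_two_left.mpr hodd)) hn

end generic

open IsDedekindDomain IsDedekindDomain.HeightOneSpectrum in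
/-- the local degree at an odd prime is infinite -/
theorem local_infinite (T : Tower) {K : Type*} [Field K] [NumberField K]
    (v : HeightOneSpectrum (𝓞 K)) (p : ℕ) (hp : p.Prime) (hp2 : p ≠ 2)
    (hpv : (p : 𝓞 K) ∈ v.asIdeal) (hsurj : ∀ a : 𝓞 K, ∃ n : ℤ, a - (n : 𝓞 K) ∈ v.asIdeal)
    {Ω : Type*} [Field Ω] [Algebra (v.adicCompletion K) Ω] (ι : Qb →+* Ω) :
    ¬ FiniteDimensional (v.adicCompletion K)
      (adjoin (v.adicCompletion K) (ι '' (T.F : Set Qb))) := by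
  intro hfd
  set k := v.adicCompletion K
  obtain ⟨i, hi, hq⟩ := exists_q p hp hp2 (Module.finrank k (adjoin k (ι '' (T.F : Set Qb))))
  obtain ⟨ζ, hζ⟩ := exists_prim (T.l i)
  have hcop : p.Coprime (T.l i) := by rw [← hq]; exact T.hcop i
  have h1 : 2 ^ (i + 2) ∣ (minpoly k (ι ζ)).natDegree := by
    refine (two_pow_dvd_orderOf p (T.l i) (i + 2) (T.hl i) (by omega) (T.hmod i)
      (by rw [← hq]; exact T.hsq i) hcop).trans ?_
    exact local_degree v p hp hpv hsurj (T.l i) hcop (T.hl i).pos (ι ζ)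
      (hζ.map_of_injective ι.injective)
  have h2 := two_pow_dvd ι (T.l i) hζ (i + 2) h1
  have h3 : adjoin k (ι '' (KK hζ : Set Qb)) ≤ adjoin k (ι '' (T.F : Set Qb)) := by
    apply adjoin.mono
    apply Set.image_mono
    intro x hx
    have h4 : KK hζ ≤ T.K (i + 1) :=
      KK_mono hζ (T.hz (i + 1)) (by rw [T.hM]; exact dvd_mul_left _ _)
    exact (T.mem_F x).mpr ⟨i + 1, h4 hx⟩
  have h4 : Module.finrank k (adjoin k (ι '' (KK hζ : Set Qb))) ≤
      Module.finrank k (adjoin k (ι '' (T.F : Set Qb))) := IntermediateField.finrank_le_of_le_right h3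
  have h5 : 0 < Module.finrank k (adjoin k (ι '' (KK hζ : Set Qb))) := by
    have : FiniteDimensional k (adjoin k (ι '' (KK hζ : Set Qb))) :=
      FiniteDimensional.of_injective (inclusion h3).toLinearMap (inclusion h3).injective
    exact Module.finrank_pos
  have h6 := Nat.le_of_dvd h5 h2
  have h7 : i < 2 ^ i := Nat.lt_two_pow_self
  have h8 : 2 ^ (i + 2) = 2 ^ i * 4 := by rw [pow_add]; norm_num
  omega

end Pool.Agent.H570
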