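import Mathlib
import Pool.Agent.H570.LocF

set_option autoImplicit false

/-!
# The final assembly
-/

namespace Pool.Agent.H570

open IntermediateField Polynomial NumberField IsDedekindDomain IsDedekindDomain.HeightOneSpectrum

/-- the rational numbers inside the algebraic closure -/
noncomputable abbrev K0 : IntermediateField ℚ Qb := ⊥

instance : NumberField K0 where
  to_charZero := inferInstance
  to_finiteDimensional := inferInstance

/-- the field of the tower over the rational numbers inside the algebraic closure -/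
noncomputable def FF (T : Tower) : IntermediateField K0 Qb := extendScalars (bot_le : K0 ≤ T.F)

lemma mem_FF (T : Tower) (x : Qb) : x ∈ FF T ↔ x ∈ T.F := Iff.rfl

lemma coe_FF (T : Tower) : (FF T : Set Qb) = (T.F : Set Qb) := rfl

instance algK0 : Algebra.IsAlgebraic K0 Qb := Algebra.IsAlgebraic.tower_top (K := ℚ) K0

lemma isGalois_FF (T : Tower) : IsGalois K0 (FF T) := by
  have hg : IsGalois K0 Qb := IsGalois.tower_top_of_isGalois ℚ K0 Qb
  have hn : Normal K0 (FF T) := by
    rw [IntermediateField.normal_iff_forall_map_le']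
    intro σ x hx
    obtain ⟨y, hy, rfl⟩ := hx
    exact T.map_mem (σ.restrictScalars ℚ) y hy
  exact { to_isSeparable := inferInstance, to_normal := hn }

lemma exists_int_K0 (a : 𝓞 K0) : ∃ n : ℤ, a = (n : 𝓞 K0) := by
  obtain ⟨r, hr⟩ := IntermediateField.mem_bot.mp (a : K0).2
  have h1 : IsIntegral ℤ r := by
    have h2 : IsIntegral ℤ (((a : K0) : Qb)) := by
      exact (RingOfIntegers.isIntegral_coe a).map (algebraMap K0 Qb).toIntAlgHom
    rw [← hr] at h2
    exact (isIntegral_algebraMap_iff (algebraMap ℚ Qb).injective).mp h2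
  obtain ⟨n, hn⟩ := IsIntegrallyClosed.isIntegral_iff.mp h1
  refine ⟨n, ?_⟩
  apply RingOfIntegers.ext
  apply Subtype.ext
  rw [← hr, ← hn]
  simp

/-- the rational prime below a prime -/
lemma exists_prime_mem (v : HeightOneSpectrum (𝓞 K0)) : ∃ p : ℕ, p.Prime ∧ (p : 𝓞 K0) ∈ v.asIdeal := by
  obtain ⟨a, ha, ha0⟩ := Submodule.exists_mem_ne_zero_of_ne_bot v.ne_bot
  obtain ⟨n, rfl⟩ := exists_int_K0 a
  have hn0 : n ≠ 0 := by
    rintro rfl
    simp at ha0
  have hn1 : (n.natAbs : 𝓞 K0) ∈ v.asIdeal := by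
    rcases Int.natAbs_eq n with h | h
    · have h2 : ((n.natAbs : ℕ) : 𝓞 K0) = ((n : ℤ) : 𝓞 K0) := by
        rw [← Int.cast_natCast, ← h]
      rw [h2]
      exact ha
    · have h2 : ((n.natAbs : ℕ) : 𝓞 K0) = -((n : ℤ) : 𝓞 K0) := by
        have : ((n.natAbs : ℕ) : ℤ) = -n := by omega
        rw [← Int.cast_natCast, this, Int.cast_neg]
      rw [h2]
      exact v.asIdeal.neg_mem ha
  have hprime := v.isPrime
  have key : ∀ m : ℕ, m ≠ 0 → (m : 𝓞 K0) ∈ v.asIdeal →
      ∃ p : ℕ, p.Prime ∧ (p : 𝓞 K0) ∈ v.asIdeal := by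
    intro m
    induction m using Nat.recOnMul with
    | zero => intro h; exact absurd rfl h
    | one =>
      intro _ h
      rw [Nat.cast_one] at h
      exact absurd ((Ideal.eq_top_iff_one _).mpr h) hprime.ne_top
    | prime p hp => intro _ h; exact ⟨p, hp, h⟩
    | mul a b iha ihb =>
      intro h0 h
      rw [Nat.cast_mul] at h
      rcases hprime.mem_or_mem h with h | h
      · exact iha (left_ne_zero_of_mul h0) h
      · exact ihb (right_ne_zero_of_mul h0) h
  exact key _ (Int.natAbs_ne_zero.mpr hn0) hn1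

/-- only the places above two can have finite local degree -/
theorem finite_places (T : Tower) : {v : HeightOneSpectrum (𝓞 K0) |
    ∀ ι : Qb →ₐ[K0] AlgebraicClosure (v.adicCompletion K0),
      FiniteDimensional (v.adicCompletion K0)
        (IntermediateField.adjoin (v.adicCompletion K0) (ι '' (FF T : Set Qb)))}.Finite := by
  have hne : Ideal.span {(2 : 𝓞 K0)} ≠ 0 := by
    rw [Ideal.zero_eq_bot, Ne, Ideal.span_singleton_eq_bot]
    exact two_ne_zero
  refine (Ideal.finite_factors hne).subset ?_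
  intro v hv
  simp only [Set.mem_ofPred_eq] at hv ⊢
  rw [Ideal.dvd_span_singleton]
  obtain ⟨p, hp, hpv⟩ := exists_prime_mem v
  by_cases hp2 : p = 2
  · rw [hp2] at hpv
    exact_mod_cast hpv
  · exfalso
    let ι : Qb →ₐ[K0] AlgebraicClosure (v.adicCompletion K0) := IsAlgClosed.lift
    refine local_infinite T v p hp hp2 hpv ?_ ι.toRingHom ?_
    · intro a
      obtain ⟨n, hn⟩ := exists_int_K0 a
      exact ⟨n, by rw [hn, sub_self]; exact v.asIdeal.zero_mem⟩
    · exact hv ι

open Pool.Agent.Helper259.AbsHt in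
/-- the property of the small points, for every rational map -/
theorem usb (T : Tower) (f : RatFunc Qb) (hf : 2 ≤ max f.num.natDegree f.denom.natDegree) :
    {α : Qb | α ∈ FF T ∧ ∃ L : ℝ, Filter.Tendsto (fun n : ℕ =>
      Pool.Agent.H58W.hM (((Pool.Agent.H58W.lift f.num f.denom
        (max f.num.natDegree f.denom.natDegree))^[n] (α, 1)).1 /
        ((Pool.Agent.H58W.lift f.num f.denom
          (max f.num.natDegree f.denom.natDegree))^[n] (α, 1)).2) /
          ((max f.num.natDegree f.denom.natDegree : ℕ) : ℝ) ^ n)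
        Filter.atTop (nhds L) ∧ L < 1}.Finite := by
  obtain ⟨m, hm⟩ := Pool.Agent.H58W.small_limit_bound f.num f.denom _ rfl hf
    (RatFunc.isCoprime_num_denom f)
  refine (T.northcott m).subset ?_
  rintro α ⟨hα, L, hlim, hL⟩
  exact ⟨hα, hm _ α le_rfl L hL hlim⟩

end Pool.Agent.H570
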